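import Pool.Agent.Helper71.BD.Dvd
import Pool.Agent.Helper15.FKS.NormForm

/-!
# Forms over prime-to-`l` closed fields (Helper74, row A4 of PROJECT BD)

`BD.exists_zero` : forms `f₁, …, f_r` of degrees `D₁, …, D_r > 0` in `N > ∑ l ^ v_l (D_i)`
variables over a pseudo algebraically closed field `F` all of whose finite extensions have degree
divisible by the prime `l` have a common nontrivial zero over `F`.
-/

set_option autoImplicit false

open MvPolynomial Module

namespace BD

universe u

variable {F : Type u} [Field F] {N : ℕ}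

/-- The Hilbert series modulo `l`. -/
noncomputable def hser (l : ℕ) (I : Ideal (MvPolynomial (Fin N) F)) : PowerSeries (ZMod l) :=
  PowerSeries.mk fun n => (hil I n : ZMod l)

theorem hser_add (l : ℕ) {I : Ideal (MvPolynomial (Fin N) F)} (hI : Hom I)
    {f : MvPolynomial (Fin N) F} {d : ℕ} (hf : f.IsHomogeneous d) :
    hser l I = hser l (I ⊔ Ideal.span {f}) + PowerSeries.X ^ d * hser l (col I f) := by
  ext n
  rw [map_add, hser, hser, hser, PowerSeries.coeff_mk, PowerSeries.coeff_mk,
    PowerSeries.coeff_X_pow_mul']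
  split_ifs with h
  · obtain ⟨m, rfl⟩ := Nat.exists_eq_add_of_le' h
    rw [hil_add hI hf, Nat.add_sub_cancel, PowerSeries.coeff_mk, Nat.cast_add]
  · rw [hil_add_lt hI hf (not_le.1 h), add_zero]

/-- Power series which are polynomials. -/
def IsPol {l : ℕ} (s : PowerSeries (ZMod l)) : Prop := ∃ p : Polynomial (ZMod l), s = p

theorem IsPol.add {l : ℕ} {s t : PowerSeries (ZMod l)} (hs : IsPol s) (ht : IsPol t) :
    IsPol (s + t) := by
  obtain ⟨p, rfl⟩ := hs
  obtain ⟨q, rfl⟩ := ht
  exact ⟨p + q, by rw [Polynomial.coe_add]⟩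

theorem IsPol.mul {l : ℕ} {s t : PowerSeries (ZMod l)} (hs : IsPol s) (ht : IsPol t) :
    IsPol (s * t) := by
  obtain ⟨p, rfl⟩ := hs
  obtain ⟨q, rfl⟩ := ht
  exact ⟨p * q, by rw [Polynomial.coe_mul]⟩

theorem isPol_X_pow {l : ℕ} (d : ℕ) : IsPol (PowerSeries.X ^ d : PowerSeries (ZMod l)) :=
  ⟨Polynomial.X ^ d, by rw [Polynomial.coe_pow, Polynomial.coe_X]⟩

theorem isPol_one_sub {l : ℕ} (d : ℕ) : IsPol (1 - PowerSeries.X ^ d : PowerSeries (ZMod l)) :=
  ⟨1 - Polynomial.X ^ d, by
    rw [Polynomial.coe_sub, Polynomial.coe_pow, Polynomial.coe_X, Polynomial.coe_one]⟩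

theorem isPol_of_eventually {l : ℕ} {s : PowerSeries (ZMod l)}
    (h : ∀ᶠ n in Filter.atTop, PowerSeries.coeff n s = 0) : IsPol s := by
  obtain ⟨m, hm⟩ := Filter.eventually_atTop.1 h
  refine ⟨PowerSeries.trunc m s, ?_⟩
  ext n
  rw [Polynomial.coeff_coe, PowerSeries.coeff_trunc]
  split_ifs with hn
  · rfl
  · exact hm n (not_lt.1 hn)

theorem isPol_ser {l : ℕ} {I : Ideal (MvPolynomial (Fin N) F)}
    (h : ∀ᶠ n in Filter.atTop, l ∣ hil I n) : IsPol (hser l I) := by
  refine isPol_of_eventually (h.mono fun n hn => ?_)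
  rw [hser, PowerSeries.coeff_mk]
  exact (ZMod.natCast_eq_zero_iff _ _).2 hn

/-- **The poles of the Hilbert series.** -/
theorem isPol_prod {l : ℕ} {ι : Type*} [DecidableEq ι] (D : ι → ℕ)
    (f : ι → MvPolynomial (Fin N) F) (hf : ∀ a, (f a).IsHomogeneous (D a))
    (h0 : ∀ I : Ideal (MvPolynomial (Fin N) F), Hom I → (∀ a, f a ∈ I) →
      ∀ᶠ n in Filter.atTop, l ∣ hil I n) (s : Finset ι) :
    ∀ I : Ideal (MvPolynomial (Fin N) F), Hom I → (∀ a, a ∉ s → f a ∈ I) →
      IsPol ((∏ a ∈ s, (1 - PowerSeries.X ^ D a)) * hser l I) := by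
  induction s using Finset.induction_on with
  | empty =>
    intro I hI hfI
    rw [Finset.prod_empty, one_mul]
    exact isPol_ser (h0 I hI fun a => hfI a (Finset.notMem_empty a))
  | insert b s hb ih =>
    intro I
    induction I using WellFoundedGT.induction with
    | ind I ih2 =>
      intro hI hfI
      rw [Finset.prod_insert hb]
      have h1 : IsPol ((∏ a ∈ s, (1 - PowerSeries.X ^ D a)) *
          hser l (I ⊔ Ideal.span {f b})) := by
        refine ih _ (hI.sup (hom_span _ (by rintro _ rfl; exact ⟨_, hf b⟩))) fun a ha => ?_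
        by_cases hab : a = b
        · subst hab
          exact Ideal.mem_sup_right (Ideal.mem_span_singleton_self _)
        · exact Ideal.mem_sup_left (hfI a (by simp [hab, ha]))
      have h2 := hser_add l hI (hf b)
      have hle : I ≤ col I (f b) := fun g hg => mem_col.2 (Ideal.mul_mem_left _ _ hg)
      by_cases hcol : col I (f b) = I
      · rw [hcol] at h2
        have h3 : (1 - PowerSeries.X ^ D b) * (∏ a ∈ s, (1 - PowerSeries.X ^ D a)) * hser l I =
            (∏ a ∈ s, (1 - PowerSeries.X ^ D a)) * hser l (I ⊔ Ideal.span {f b}) := by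
          linear_combination (∏ a ∈ s, (1 - PowerSeries.X ^ D a)) * h2
        rw [h3]
        exact h1
      · have h4 := ih2 (col I (f b)) (lt_of_le_of_ne hle (Ne.symm hcol)) (hI.col (hf b))
          fun a ha => hle (hfI a ha)
        rw [Finset.prod_insert hb] at h4
        have h3 : (1 - PowerSeries.X ^ D b) * (∏ a ∈ s, (1 - PowerSeries.X ^ D a)) * hser l I =
            (1 - PowerSeries.X ^ D b) *
              ((∏ a ∈ s, (1 - PowerSeries.X ^ D a)) * hser l (I ⊔ Ideal.span {f b})) +
            PowerSeries.X ^ D b * ((1 - PowerSeries.X ^ D b) *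
              (∏ a ∈ s, (1 - PowerSeries.X ^ D a)) * hser l (col I (f b))) := by
          linear_combination ((1 - PowerSeries.X ^ D b) *
            (∏ a ∈ s, (1 - PowerSeries.X ^ D a))) * h2
        rw [h3]
        exact ((isPol_one_sub _).mul h1).add ((isPol_X_pow _).mul h4)

/-- The series of an ideal generated by variables. -/
theorem one_sub_pow_mul_ser (l : ℕ) (s : Finset (Fin N)) :
    (1 - PowerSeries.X) ^ s.card * hser l (⊥ : Ideal (MvPolynomial (Fin N) F)) =
      hser l (Ideal.span (X '' (s : Set (Fin N))) : Ideal (MvPolynomial (Fin N) F)) := by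
  classical
  induction s using Finset.induction_on with
  | empty => simp
  | insert b s hb ih =>
    have hH : Hom (Ideal.span (X '' (s : Set (Fin N))) : Ideal (MvPolynomial (Fin N) F)) := by
      refine hom_span _ ?_
      rintro _ ⟨i, -, rfl⟩
      exact ⟨1, isHomogeneous_X F i⟩
    have h1 := hser_add l hH (isHomogeneous_X F b)
    have h2 : col (Ideal.span (X '' (s : Set (Fin N)))) (X b) =
        (Ideal.span (X '' (s : Set (Fin N))) : Ideal (MvPolynomial (Fin N) F)) := by
      apply le_antisymm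
      · intro g hg
        rw [mem_col, mem_ideal_span_X_image] at hg
        rw [mem_ideal_span_X_image]
        intro m hm
        obtain ⟨i, hi, hmi⟩ := hg (Finsupp.single b 1 + m) (by
          rw [MvPolynomial.mem_support_iff, coeff_X_mul]
          exact MvPolynomial.mem_support_iff.1 hm)
        refine ⟨i, hi, ?_⟩
        have hib : b ≠ i := by
          rintro rfl
          exact hb (by simpa using hi)
        simpa [Finsupp.single_apply, hib] using hmi
      · exact fun g hg => mem_col.2 (Ideal.mul_mem_left _ _ hg)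
    have h3 : (Ideal.span (X '' ((insert b s : Finset (Fin N)) : Set (Fin N))) :
        Ideal (MvPolynomial (Fin N) F)) =
        Ideal.span (X '' (s : Set (Fin N))) ⊔ Ideal.span {X b} := by
      rw [Finset.coe_insert, Set.image_insert_eq, Ideal.span_insert, sup_comm]
    rw [h2, pow_one] at h1
    rw [h3, Finset.card_insert_of_notMem hb, pow_succ]
    linear_combination (1 - PowerSeries.X) * ih + h1

theorem hil_zero_of {I : Ideal (MvPolynomial (Fin N) F)} (hI : I ≠ ⊤) : hil I 0 = 1 := by
  have h1 : part I 0 = ⊥ := by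
    rw [eq_bot_iff]
    intro p hp
    obtain ⟨h2, h3⟩ := mem_part.1 hp
    rw [Submodule.mem_bot]
    rw [← mem_homogeneousSubmodule, homogeneousSubmodule_zero, Submodule.mem_one] at h3
    obtain ⟨c, rfl⟩ := h3
    by_contra h4
    apply hI
    have hc : c ≠ 0 := by
      rintro rfl
      exact h4 (map_zero _)
    refine Ideal.eq_top_of_isUnit_mem _ h2 ?_
    exact (isUnit_iff_ne_zero.2 hc).map (algebraMap F (MvPolynomial (Fin N) F))
  have h2 : finrank F (homogeneousSubmodule (Fin N) F 0) = 1 := by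
    rw [homogeneousSubmodule_zero, finrank_eq_one_iff']
    refine ⟨⟨1, Submodule.mem_one.2 ⟨1, map_one _⟩⟩, ?_, ?_⟩
    · intro h
      exact one_ne_zero (congrArg Subtype.val h)
    · rintro ⟨w, hw⟩
      obtain ⟨c, rfl⟩ := Submodule.mem_one.1 hw
      exact ⟨c, Subtype.ext (by simp [Algebra.smul_def])⟩
  rw [hil, h1, h2]
  simp

/-- `(1 - X) ^ N * H = 1` for the Hilbert series `H` of the polynomial ring. -/
theorem one_sub_pow_mul_ser_bot (l : ℕ) :
    (1 - PowerSeries.X) ^ N * hser l (⊥ : Ideal (MvPolynomial (Fin N) F)) = 1 := by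
  have h1 := one_sub_pow_mul_ser (F := F) l (Finset.univ : Finset (Fin N))
  rw [Finset.card_univ, Fintype.card_fin] at h1
  rw [h1]
  ext n
  rw [hser, PowerSeries.coeff_mk, PowerSeries.coeff_one]
  split_ifs with hn
  · subst hn
    rw [hil_zero_of, Nat.cast_one]
    intro htop
    have h2 : (1 : MvPolynomial (Fin N) F) ∈
        Ideal.span (X '' ((Finset.univ : Finset (Fin N)) : Set (Fin N))) := by
      rw [htop]
      trivial
    rw [mem_ideal_span_X_image] at h2
    obtain ⟨i, -, hi⟩ := h2 0 (by simp)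
    exact hi rfl
  · have h2 : ∀ i, (X i : MvPolynomial (Fin N) F) ∈
        Ideal.span (X '' ((Finset.univ : Finset (Fin N)) : Set (Fin N))) := fun i =>
      Ideal.subset_span (Set.mem_image_of_mem X (by simp))
    rw [hil_eq_zero h2 (Nat.pos_of_ne_zero hn), Nat.cast_zero]

/-- The order of `1 - X ^ D` at `X = 1` in characteristic `l`. -/
theorem rootMultiplicity_one_sub {l : ℕ} [hl : Fact l.Prime] {D : ℕ} (hD : 0 < D) :
    Polynomial.rootMultiplicity 1 (1 - Polynomial.X ^ D : Polynomial (ZMod l)) =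
      l ^ padicValNat l D := by
  obtain ⟨m, hm, hDm⟩ : ∃ m, ¬ l ∣ m ∧ D = m * l ^ padicValNat l D := by
    obtain ⟨m, hm⟩ := pow_padicValNat_dvd (p := l) (n := D)
    refine ⟨m, fun h => ?_, by rw [mul_comm]; exact hm⟩
    have h2 : l ^ (padicValNat l D + 1) ∣ D := by
      obtain ⟨k, rfl⟩ := h
      refine ⟨k, ?_⟩
      rw [pow_succ]
      linarith [hm]
    exact pow_succ_padicValNat_not_dvd hD.ne' h2
  have h1 : (1 - Polynomial.X ^ D : Polynomial (ZMod l)) =
      (1 - Polynomial.X ^ m) ^ l ^ padicValNat l D := by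
    conv_lhs => rw [hDm]
    rw [pow_mul, sub_pow_char_pow, one_pow]
  have hm0 : (m : ZMod l) ≠ 0 := fun h => hm ((ZMod.natCast_eq_zero_iff _ _).1 h)
  have h2 : (1 - Polynomial.X ^ m : Polynomial (ZMod l)) ≠ 0 := by
    intro h
    have h3 := congrArg (fun p => Polynomial.eval 1 (Polynomial.derivative p)) h
    simp [Polynomial.derivative_X_pow] at h3
    exact hm0 h3
  have h3 : Polynomial.rootMultiplicity 1 (1 - Polynomial.X ^ m : Polynomial (ZMod l)) = 1 := by
    apply le_antisymm
    · by_contra hcon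
      push Not at hcon
      have h4 : (Polynomial.derivative (1 - Polynomial.X ^ m : Polynomial (ZMod l))).IsRoot 1 := by
        have := (Polynomial.one_lt_rootMultiplicity_iff_isRoot h2).1 hcon
        exact this.2
      rw [Polynomial.IsRoot.def] at h4
      simp [Polynomial.derivative_X_pow] at h4
      exact hm0 h4
    · rw [Nat.one_le_iff_ne_zero, ← Nat.pos_iff_ne_zero, Polynomial.rootMultiplicity_pos h2]
      simp
  rw [h1, ← Polynomial.count_roots, Polynomial.roots_pow, Multiset.count_nsmul,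
    Polynomial.count_roots, h3, mul_one]

/-- **Forms over prime-to-`l` closed fields.** -/
theorem exists_zero {l : ℕ} (hl : l.Prime)
    (hF : ∀ (E : Type u) [Field E] [Algebra F E] (a : E), IsAlgebraic F a →
      a ∉ (algebraMap F E).range → l ∣ finrank F (IntermediateField.adjoin F {a}))
    (hP : HomPAC F) {ι : Type*} [Fintype ι] (D : ι → ℕ) (f : ι → MvPolynomial (Fin N) F)
    (hf : ∀ a, (f a).IsHomogeneous (D a)) (hD : ∀ a, 0 < D a)
    (hlt : ∑ a, l ^ padicValNat l (D a) < N) :
    ∃ x : Fin N → F, x ≠ 0 ∧ ∀ a, eval x (f a) = 0 := by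
  classical
  have : Fact l.Prime := ⟨hl⟩
  by_contra hcon
  push Not at hcon
  obtain ⟨p, hp⟩ := isPol_prod (l := l) D f hf (fun I hI hfI => hil_dvd hF hP I hI fun x hx => by
    obtain ⟨a, ha⟩ := hcon x hx
    exact ⟨f a, hfI a, ha⟩) Finset.univ ⊥ hom_bot (fun a ha => absurd (Finset.mem_univ a) ha)
  have h1 := one_sub_pow_mul_ser_bot (F := F) (N := N) l
  have h2 : (∏ a, (1 - Polynomial.X ^ D a) : Polynomial (ZMod l)) = (1 - Polynomial.X) ^ N * p := by
    apply Polynomial.coe_injective
    rw [Polynomial.coe_mul, Polynomial.coe_pow, Polynomial.coe_sub, Polynomial.coe_one,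
      Polynomial.coe_X, ← hp]
    have h3 : ((∏ a, (1 - Polynomial.X ^ D a) : Polynomial (ZMod l)) : PowerSeries (ZMod l)) =
        ∏ a, (1 - PowerSeries.X ^ D a) := by
      rw [← Polynomial.coeToPowerSeries.ringHom_apply, map_prod]
      refine Finset.prod_congr rfl fun a _ => ?_
      simp
    rw [h3]
    linear_combination (-(∏ a, (1 - PowerSeries.X ^ D a))) * h1
  have h3 : ∀ a, (1 - Polynomial.X ^ D a : Polynomial (ZMod l)) ≠ 0 := by
    intro a h
    have h4 := rootMultiplicity_one_sub (l := l) (hD a)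
    rw [h, Polynomial.rootMultiplicity_zero] at h4
    exact (Nat.pow_pos hl.pos).ne h4
  have h4 : (∏ a, (1 - Polynomial.X ^ D a) : Polynomial (ZMod l)) ≠ 0 :=
    Finset.prod_ne_zero_iff.2 fun a _ => h3 a
  have h5 : Polynomial.rootMultiplicity 1 (∏ a, (1 - Polynomial.X ^ D a) : Polynomial (ZMod l)) =
      ∑ a, l ^ padicValNat l (D a) := by
    have : ∀ s : Finset ι, Polynomial.rootMultiplicity 1
        (∏ a ∈ s, (1 - Polynomial.X ^ D a) : Polynomial (ZMod l)) =
        ∑ a ∈ s, l ^ padicValNat l (D a) := by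
      intro s
      induction s using Finset.induction_on with
      | empty => simp
      | insert b s hb ih =>
        rw [Finset.prod_insert hb, Finset.sum_insert hb, Polynomial.rootMultiplicity_mul, ih,
          rootMultiplicity_one_sub (hD b)]
        exact mul_ne_zero (h3 b) (Finset.prod_ne_zero_iff.2 fun a _ => h3 a)
    exact this Finset.univ
  have h6 : N ≤ Polynomial.rootMultiplicity 1
      (∏ a, (1 - Polynomial.X ^ D a) : Polynomial (ZMod l)) := by
    rw [Polynomial.le_rootMultiplicity_iff h4, h2]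
    refine ⟨(-1) ^ N * p, ?_⟩
    rw [Polynomial.C_1, ← mul_assoc, ← mul_pow]
    congr 2
    ring
  omega

/-- The standard graded theorem in the form used for the weights. -/
theorem std_of_homPAC {l : ℕ} (hl : l.Prime)
    (hF : ∀ (E : Type u) [Field E] [Algebra F E] (a : E), IsAlgebraic F a →
      a ∉ (algebraMap F E).range → l ∣ finrank F (IntermediateField.adjoin F {a}))
    (hP : HomPAC F) : ZC.Std l F :=
  ZC.Std.of_fin fun _ _ D f hf hD hlt => exists_zero hl hF hP D f hf hD hlt

end BD
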