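import Pool.Agent.Helper74.BD.Push

/-!
# Chain algebra: from the ideal of the space of chains to one variable

The elements below are polynomial expressions in `V` and `w 1, w 2, …`.  The statement `Mem m` says
that, for every commutative ring and all units `V`, `w k` with `w k = 1` for `k > m`, the class `GG`
is in the ideal generated by `rr k` (`1 ≤ k ≤ m`), `RR m` and `BB k` (`m < k ≤ e - 2`).
The push lemma gives `Mem m → Mem (m - 1)`.
-/

open Polynomial Finset

namespace BDF

/-- the numerical data: number of forms `r`, their degrees `d`, the length `e`, the multiplicities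
`c a j` of the equations, `α i` of the points and `b` of the last variables -/
structure Dat where
  r : ℕ
  d : Fin r → ℕ
  e : ℕ
  c : Fin r → ℕ → ℕ
  α : ℕ → ℕ
  b : ℕ

variable (D : Dat)

section defs

variable {B : Type*} [CommRing B] (V : B) (w : ℕ → B)

/-- the class of the `i`-th point -/
def TT (i : ℕ) : B := V ^ i * ∏ k ∈ Ico 1 i, w k ^ (i - k)

/-- the class of the `j`-th equation of a form of degree `d` -/
def DD (e d j : ℕ) : B :=
  TT V w (j / d) ^ (d - j % d) * (if j / d + 1 = e then 1 else TT V w (j / d + 1) ^ (j % d))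

def rr (k : ℕ) : B := (1 - TT V w k) ^ D.α k * (1 - w k)

def RR (m : ℕ) : B := (∏ i ∈ Ico (m + 1) D.e, (1 - TT V w i) ^ D.α i) * (1 - TT V w D.e) ^ D.b

def HH (k : ℕ) : B :=
  ∏ a : Fin D.r, ∏ j ∈ Ico 1 (D.d a * k + 1), (1 - DD V w D.e (D.d a) j) ^ D.c a j

def BB (k : ℕ) : B := HH D V w k * RR D V w k

def GG : B := ∏ a : Fin D.r, ∏ j ∈ Ico 1 (D.d a * D.e), (1 - DD V w D.e (D.d a) j) ^ D.c a j

/-- the ideal at stage `m` -/
def II (m : ℕ) : Ideal B :=
  Ideal.span ({x | ∃ k, 1 ≤ k ∧ k ≤ m ∧ x = rr D V w k} ∪ {RR D V w m} ∪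
    {x | ∃ k, m < k ∧ k + 2 ≤ D.e ∧ x = BB D V w k})

end defs

section maps

variable {A B : Type*} [CommRing A] [CommRing B] (f : A →+* B) (V : A) (w : ℕ → A)

theorem map_TT (i : ℕ) : f (TT V w i) = TT (f V) (fun k => f (w k)) i := by
  simp [TT]

theorem map_DD (e d j : ℕ) : f (DD V w e d j) = DD (f V) (fun k => f (w k)) e d j := by
  unfold DD
  split_ifs <;> simp [map_TT]

theorem map_rr (k : ℕ) : f (rr D V w k) = rr D (f V) (fun k => f (w k)) k := by
  simp [rr, map_TT]

theorem map_RR (k : ℕ) : f (RR D V w k) = RR D (f V) (fun k => f (w k)) k := by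
  simp [RR, map_TT]

theorem map_HH (k : ℕ) : f (HH D V w k) = HH D (f V) (fun k => f (w k)) k := by
  simp [HH, map_DD]

theorem map_BB (k : ℕ) : f (BB D V w k) = BB D (f V) (fun k => f (w k)) k := by
  simp [BB, map_HH, map_RR]

theorem map_GG : f (GG D V w) = GG D (f V) (fun k => f (w k)) := by
  simp [GG, map_DD]

theorem map_II (m : ℕ) : (II D V w m).map f = II D (f V) (fun k => f (w k)) m := by
  unfold II
  rw [Ideal.map_span]
  congr 1
  ext x
  constructor
  · rintro ⟨y, (⟨k, h1, h2, rfl⟩ | rfl) | ⟨k, h1, h2, rfl⟩, rfl⟩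
    · exact Or.inl (Or.inl ⟨k, h1, h2, map_rr D f V w k⟩)
    · exact Or.inl (Or.inr (map_RR D f V w m))
    · exact Or.inr ⟨k, h1, h2, map_BB D f V w k⟩
  · rintro ((⟨k, h1, h2, rfl⟩ | rfl) | ⟨k, h1, h2, rfl⟩)
    · exact ⟨_, Or.inl (Or.inl ⟨k, h1, h2, rfl⟩), map_rr D f V w k⟩
    · exact ⟨_, Or.inl (Or.inr rfl), map_RR D f V w m⟩
    · exact ⟨_, Or.inr ⟨k, h1, h2, rfl⟩, map_BB D f V w k⟩

end maps

/-- the statement at stage `m` -/
def Mem (l m : ℕ) : Prop :=
  ∀ (B : Type) [CommRing B] [Algebra (ZMod l) B] (V : B) (w : ℕ → B), IsUnit V →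
    (∀ k, IsUnit (w k)) → (∀ k, m < k → w k = 1) → GG D V w ∈ II D V w m

section congr

variable {B : Type*} [CommRing B] (V : B)

theorem TT_congr {w w' : ℕ → B} {i : ℕ} (h : ∀ k, 1 ≤ k → k < i → w k = w' k) :
    TT V w i = TT V w' i := by
  unfold TT
  congr 1
  apply Finset.prod_congr rfl
  intro k hk
  rw [mem_Ico] at hk
  rw [h k hk.1 hk.2]

theorem rr_congr {w w' : ℕ → B} {k : ℕ} (h1 : 1 ≤ k) (h : ∀ i, 1 ≤ i → i ≤ k → w i = w' i) :
    rr D V w k = rr D V w' k := by
  unfold rr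
  rw [TT_congr V (fun i hi hik => h i hi hik.le), h k h1 le_rfl]

theorem DD_congr {w w' : ℕ → B} {e d j m : ℕ} (hj : j ≤ d * m)
    (h : ∀ k, 1 ≤ k → k < m → w k = w' k) : DD V w e d j = DD V w' e d j := by
  rcases Nat.eq_zero_or_pos d with rfl | hd
  · have hj0 : j = 0 := by omega
    subst hj0
    simp [DD]
  have hq : j / d ≤ m := by
    rw [Nat.div_le_iff_le_mul_add_pred hd]
    have := Nat.sub_le d 1
    omega
  unfold DD
  rw [TT_congr V (i := j / d) (fun k hk hkj => h k hk (by omega))]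
  rcases Nat.lt_or_ge (j / d) m with h1 | h1
  · rw [TT_congr V (i := j / d + 1) (fun k hk hkj => h k hk (by omega))]
  · have h2 : j / d = m := le_antisymm hq h1
    have h3 : j % d = 0 := by
      have := Nat.div_add_mod j d
      rw [h2] at this
      omega
    rw [h3]
    simp

theorem HH_congr {w w' : ℕ → B} {m : ℕ} (h : ∀ k, 1 ≤ k → k < m → w k = w' k) :
    HH D V w m = HH D V w' m := by
  unfold HH
  apply Finset.prod_congr rfl
  intro a _
  apply Finset.prod_congr rfl
  intro j hj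
  rw [mem_Ico] at hj
  rw [DD_congr V (by omega) h]

end congr

section dvd

variable {B : Type*} [CommRing B] (V : B) (w : ℕ → B)

/-- the product of the factors between `d_a m < j ≤ d_a k` -/
def HM (m k : ℕ) : B :=
  ∏ a : Fin D.r, ∏ j ∈ Ico (D.d a * m + 1) (D.d a * k + 1),
    (1 - DD V w D.e (D.d a) j) ^ D.c a j

theorem HH_eq {m k : ℕ} (h : m ≤ k) : HH D V w k = HH D V w m * HM D V w m k := by
  unfold HH HM
  rw [← Finset.prod_mul_distrib]
  apply Finset.prod_congr rfl
  intro a _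
  rw [Finset.prod_Ico_consecutive]
  · omega
  · have := Nat.mul_le_mul_left (D.d a) h
    omega

def GM (m : ℕ) : B :=
  ∏ a : Fin D.r, ∏ j ∈ Ico (D.d a * m + 1) (D.d a * D.e),
    (1 - DD V w D.e (D.d a) j) ^ D.c a j

theorem GG_eq {m : ℕ} (hd : ∀ a, 0 < D.d a) (h : m < D.e) :
    GG D V w = HH D V w m * GM D V w m := by
  unfold GG HH GM
  rw [← Finset.prod_mul_distrib]
  apply Finset.prod_congr rfl
  intro a _
  rw [Finset.prod_Ico_consecutive]
  · omega
  · have := Nat.mul_lt_mul_of_pos_left h (hd a)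
    omega

end dvd

section lead

variable {B : Type*} [CommRing B]

/-- `1 - C u X ^ n` with `u` a unit and `n > 0` -/
theorem lead_factor [Nontrivial B] {u : B} (hu : IsUnit u) {n : ℕ} (hn : 0 < n) :
    IsUnit (1 - C u * X ^ n : B[X]).leadingCoeff ∧ (1 - C u * X ^ n : B[X]).natDegree = n := by
  have hu0 : u ≠ 0 := hu.ne_zero
  have h1 : (1 - C u * X ^ n : B[X]) = C (-u) * X ^ n + C 1 := by
    rw [C_neg, C_1]; ring
  have h2 : (C (-u) * X ^ n + C 1 : B[X]).natDegree = n := by
    rw [natDegree_add_C, natDegree_C_mul_X_pow _ _ (neg_ne_zero.2 hu0)]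
  rw [h1]
  refine ⟨?_, h2⟩
  rw [leadingCoeff, h2, coeff_add, coeff_C_mul, coeff_X_pow_self, coeff_C, if_neg hn.ne']
  simpa using hu

theorem lead_mul {p q : B[X]} (hp : IsUnit p.leadingCoeff) (hq : IsUnit q.leadingCoeff) :
    IsUnit (p * q).leadingCoeff ∧ (p * q).natDegree = p.natDegree + q.natDegree := by
  nontriviality B
  have h : p.leadingCoeff * q.leadingCoeff ≠ 0 := (hp.mul hq).ne_zero
  exact ⟨by rw [leadingCoeff_mul' h]; exact hp.mul hq, natDegree_mul' h⟩

theorem lead_pow {p : B[X]} (hp : IsUnit p.leadingCoeff) (n : ℕ) :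
    IsUnit (p ^ n).leadingCoeff ∧ (p ^ n).natDegree = n * p.natDegree := by
  induction n with
  | zero => simp
  | succ n ih =>
    rw [pow_succ]
    have := lead_mul ih.1 hp
    refine ⟨this.1, ?_⟩
    rw [this.2, ih.2]; ring

theorem lead_prod {ι : Type*} (s : Finset ι) (p : ι → B[X])
    (hp : ∀ i ∈ s, IsUnit (p i).leadingCoeff) : IsUnit (∏ i ∈ s, p i).leadingCoeff := by
  classical
  induction s using Finset.induction_on with
  | empty => simp
  | insert i s hi ih =>
    rw [Finset.prod_insert hi]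
    exact (lead_mul (hp i (mem_insert_self _ _)) (ih fun j hj => hp j (mem_insert_of_mem hj))).1

end lead

section step

variable {B : Type*} [CommRing B] (V : B) (w : ℕ → B)

/-- the variables over `B[X]`: `w m` is replaced by `X` -/
noncomputable def ww (m : ℕ) : ℕ → B[X] := fun k => if k = m then X else C (w k)

theorem ww_lt {m k : ℕ} (h : k ≠ m) : ww w m k = C (w k) := if_neg h

theorem ww_self (m : ℕ) : ww w m m = X := if_pos rfl

theorem TT_C (i : ℕ) : TT (C V) (fun k => C (w k)) i = C (TT V w i) :=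
  (map_TT C V w i).symm

theorem TT_le {m i : ℕ} (h : i ≤ m) : TT (C V) (ww w m) i = C (TT V w i) := by
  rw [← TT_C]
  exact TT_congr _ fun k _ hk => ww_lt w (by omega)

theorem TT_gt {m i : ℕ} (hm : 1 ≤ m) (h : m < i) (hw : w m = 1) :
    TT (C V) (ww w m) i = C (TT V w i) * X ^ (i - m) := by
  unfold TT
  have h1 : m ∈ Ico 1 i := mem_Ico.2 ⟨hm, h⟩
  rw [← Finset.mul_prod_erase _ _ h1, ← Finset.mul_prod_erase (Ico 1 i) (fun k => w k ^ (i - k)) h1,
    ww_self, hw, C_mul, C_mul, C_pow, C_pow, C_1, one_pow, one_mul]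
  have h2 : ∏ k ∈ (Ico 1 i).erase m, ww w m k ^ (i - k)
      = C (∏ k ∈ (Ico 1 i).erase m, w k ^ (i - k)) := by
    rw [map_prod]
    apply Finset.prod_congr rfl
    intro k hk
    rw [ww_lt w (ne_of_mem_erase hk), C_pow]
  rw [h2]
  ring

theorem isUnit_prod' {M ι : Type*} [CommMonoid M] (s : Finset ι) (f : ι → M)
    (h : ∀ i ∈ s, IsUnit (f i)) : IsUnit (∏ i ∈ s, f i) := by
  classical
  induction s using Finset.induction_on with
  | empty => simp
  | insert i s hi ih =>
    rw [Finset.prod_insert hi]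
    exact (h i (mem_insert_self _ _)).mul (ih fun j hj => h j (mem_insert_of_mem hj))

theorem isUnit_TT {V : B} {w : ℕ → B} (hV : IsUnit V) (hw : ∀ k, IsUnit (w k)) (i : ℕ) :
    IsUnit (TT V w i) :=
  (hV.pow i).mul (isUnit_prod' _ _ fun k _ => (hw k).pow _)

variable {V w}

theorem eval_ww {m : ℕ} (hw : w m = 1) (k : ℕ) : (ww w m k).eval 1 = w k := by
  unfold ww
  split_ifs with h
  · rw [h, hw, eval_X]
  · rw [eval_C]

theorem eval_RR {m : ℕ} (hw : w m = 1) (k : ℕ) :
    (RR D (C V) (ww w m) k).eval 1 = RR D V w k := by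
  have h := map_RR D (evalRingHom (1 : B)) (C V) (ww w m) k
  simpa only [coe_evalRingHom, eval_C, eval_ww hw] using h

theorem eval_HM {m : ℕ} (hw : w m = 1) (i k : ℕ) :
    (HM D (C V) (ww w m) i k).eval 1 = HM D V w i k := by
  have h : evalRingHom (1 : B) (HM D (C V) (ww w m) i k) =
      HM D (evalRingHom (1 : B) (C V)) (fun k => evalRingHom (1 : B) (ww w m k)) i k := by
    simp only [HM, map_prod, map_pow, map_sub, map_one, map_DD]
  simpa only [coe_evalRingHom, eval_C, eval_ww hw] using h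

theorem eval_GM {m : ℕ} (hw : w m = 1) (i : ℕ) :
    (GM D (C V) (ww w m) i).eval 1 = GM D V w i := by
  have h : evalRingHom (1 : B) (GM D (C V) (ww w m) i) =
      GM D (evalRingHom (1 : B) (C V)) (fun k => evalRingHom (1 : B) (ww w m k)) i := by
    simp only [GM, map_prod, map_pow, map_sub, map_one, map_DD]
  simpa only [coe_evalRingHom, eval_C, eval_ww hw] using h

theorem lead_RR [Nontrivial B] (hV : IsUnit V) (hw : ∀ k, IsUnit (w k)) {m : ℕ} (hm : 1 ≤ m)
    (hme : m < D.e) (hb : 0 < D.b) (hw1 : w m = 1) :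
    IsUnit (RR D (C V) (ww w m) m).leadingCoeff ∧ 0 < (RR D (C V) (ww w m) m).natDegree := by
  unfold RR
  have h0 : ∀ i, m < i → IsUnit (1 - TT (C V) (ww w m) i : B[X]).leadingCoeff ∧
      (1 - TT (C V) (ww w m) i : B[X]).natDegree = i - m := by
    intro i hi
    rw [TT_gt V w hm hi hw1]
    exact lead_factor (isUnit_TT hV hw i) (by omega)
  have h1 : IsUnit (∏ i ∈ Ico (m + 1) D.e, (1 - TT (C V) (ww w m) i) ^ D.α i).leadingCoeff := by
    apply lead_prod
    intro i hi
    rw [mem_Ico] at hi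
    exact (lead_pow (h0 i (by omega)).1 _).1
  have h2 := lead_pow (h0 D.e hme).1 D.b
  have h3 := lead_mul h1 h2.1
  refine ⟨h3.1, ?_⟩
  rw [h3.2, h2.2, (h0 D.e hme).2]
  have : 0 < D.b * (D.e - m) := Nat.mul_pos hb (by omega)
  omega

theorem RR_pred {m : ℕ} (hm : 1 ≤ m) (hme : m < D.e) :
    RR D V w (m - 1) = (1 - TT V w m) ^ D.α m * RR D V w m := by
  unfold RR
  rw [Nat.sub_add_cancel hm, Finset.prod_eq_prod_Ico_succ_bot hme, mul_assoc]

theorem step_poly (hV : IsUnit V) (hw : ∀ k, IsUnit (w k)) {m : ℕ} (hm : 1 ≤ m)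
    (hme : m + 2 ≤ D.e) (hb : 0 < D.b) (hd : ∀ a, 0 < D.d a) (hw1 : w m = 1) {N : ℕ}
    (h : X ^ N * GG D (C V) (ww w m) ∈ II D (C V) (ww w m) m) : GG D V w ∈ II D V w (m - 1) := by
  nontriviality B
  obtain ⟨hl1, hl2⟩ := lead_RR D hV hw hm (by omega) hb hw1
  obtain ⟨π, lam, h1, h2, h3⟩ := push_eval _ hl1 hl2
  rw [eval_RR D hw1] at h2 h3
  set I' := II D V w (m - 1) with hI'
  have hHC : HH D (C V) (ww w m) m = C (HH D V w m) := by
    rw [map_HH D C V w m]
    exact HH_congr D _ fun k _ hk => ww_lt w (by omega)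
  have hBm : BB D V w m ∈ I' :=
    Ideal.subset_span (Or.inr ⟨m, by omega, hme, rfl⟩)
  have hHπ : ∀ g, π (HH D (C V) (ww w m) m * g) = HH D V w m * π g := by
    intro g
    rw [hHC, ← smul_eq_C_mul, map_smul, smul_eq_mul]
  have key : ∀ x ∈ II D (C V) (ww w m) m, ∀ g, π (g * x) ∈ I' := by
    intro x hx
    refine Submodule.span_induction (p := fun x _ => ∀ g, π (g * x) ∈ I') ?_ ?_ ?_ ?_ hx
    · rintro x ((⟨k, hk1, hk2, rfl⟩ | rfl) | ⟨k, hk1, hk2, rfl⟩) g
      · rcases Nat.lt_or_ge k m with hk | hk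
        · have h4 : rr D (C V) (ww w m) k = C (rr D V w k) := by
            rw [map_rr D C V w k]
            exact rr_congr D _ hk1 fun i _ hi => ww_lt w (by omega)
          rw [h4, mul_comm, ← smul_eq_C_mul, map_smul, smul_eq_mul, mul_comm]
          exact Ideal.mul_mem_left _ _ (Ideal.subset_span (Or.inl (Or.inl ⟨k, hk1, by omega, rfl⟩)))
        · obtain rfl : k = m := le_antisymm hk2 hk
          have h4 : rr D (C V) (ww w k) k = C ((1 - TT V w k) ^ D.α k) * (1 - X) := by
            unfold rr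
            rw [TT_le V w le_rfl, ww_self]
            simp
          have h5 : g * rr D (C V) (ww w k) k = (1 - X) * (C ((1 - TT V w k) ^ D.α k) * g) := by
            rw [h4]; ring
          rw [h5, h2, ← smul_eq_C_mul, map_smul, smul_eq_mul, ← mul_assoc,
            mul_comm (RR D V w k), ← RR_pred D hm (by omega), mul_comm]
          exact Ideal.mul_mem_left _ _ (Ideal.subset_span (Or.inl (Or.inr rfl)))
      · rw [mul_comm, h1]
        exact I'.zero_mem
      · have h4 : g * BB D (C V) (ww w m) k = HH D (C V) (ww w m) m *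
            (g * HM D (C V) (ww w m) m k * RR D (C V) (ww w m) k) := by
          unfold BB
          rw [HH_eq D _ _ hk1.le]; ring
        rw [h4, hHπ]
        obtain ⟨b, hb⟩ := h3 (g * HM D (C V) (ww w m) m k * RR D (C V) (ww w m) k)
        rw [hb, eval_mul, eval_mul, eval_HM D hw1, eval_RR D hw1]
        have h5 : HH D V w m * (eval 1 g * HM D V w m k * RR D V w k + RR D V w m * b) =
            eval 1 g * BB D V w k + b * BB D V w m := by
          unfold BB
          rw [HH_eq D V w hk1.le]; ring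
        rw [h5]
        exact I'.add_mem (Ideal.mul_mem_left _ _ (Ideal.subset_span
          (Or.inr ⟨k, by omega, hk2, rfl⟩))) (Ideal.mul_mem_left _ _ hBm)
    · intro g
      rw [mul_zero, map_zero]
      exact I'.zero_mem
    · intro x y _ _ hx hy g
      rw [mul_add, map_add]
      exact I'.add_mem (hx g) (hy g)
    · intro a x _ hx g
      rw [smul_eq_mul, ← mul_assoc]
      exact hx _
  have h4 := key _ h 1
  have h5 : (1 : B[X]) * (X ^ N * GG D (C V) (ww w m)) =
      HH D (C V) (ww w m) m * (X ^ N * GM D (C V) (ww w m) m) := by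
    rw [GG_eq D _ _ hd (by omega : m < D.e)]; ring
  rw [h5, hHπ] at h4
  obtain ⟨b, hb'⟩ := h3 (X ^ N * GM D (C V) (ww w m) m)
  rw [hb', eval_mul, eval_GM D hw1, eval_pow, eval_X, one_pow, one_mul] at h4
  have h6 : GG D V w = HH D V w m * (GM D V w m + RR D V w m * b) - b * BB D V w m := by
    rw [GG_eq D V w hd (by omega : m < D.e)]
    unfold BB
    ring
  rw [h6]
  exact I'.sub_mem h4 (Ideal.mul_mem_left _ _ hBm)

end step

/-- one step down -/
theorem Mem.step {l m : ℕ} (hm : 1 ≤ m) (hme : m + 2 ≤ D.e) (hb : 0 < D.b) (hd : ∀ a, 0 < D.d a)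
    (h : Mem D l m) : Mem D l (m - 1) := by
  intro B _ _ V w hV hw hw1
  have hwm : w m = 1 := hw1 m (by omega)
  let f := algebraMap B[X] (Localization.Away (X : B[X]))
  have h1 := h (Localization.Away (X : B[X])) (f (C V)) (fun k => f (ww w m k))
    ((hV.map C).map f) ?_ ?_
  · rw [← map_GG, ← map_II,
      IsLocalization.mem_map_algebraMap_iff (Submonoid.powers (X : B[X]))] at h1
    obtain ⟨⟨⟨x, hx⟩, ⟨y, hy⟩⟩, hxy⟩ := h1
    dsimp only at hxy
    rw [← map_mul, IsLocalization.eq_iff_exists (Submonoid.powers (X : B[X]))] at hxy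
    obtain ⟨⟨c, hc⟩, hc'⟩ := hxy
    dsimp only at hc'
    obtain ⟨i, rfl⟩ := hy
    obtain ⟨j, rfl⟩ := hc
    refine step_poly D hV hw hm hme hb hd hwm (N := j + i) ?_
    have h2 : X ^ (j + i) * GG D (C V) (ww w m) = X ^ j * x := by
      rw [← hc', pow_add]; ring
    rw [h2]
    exact Ideal.mul_mem_left _ _ hx
  · intro k
    rcases eq_or_ne k m with rfl | hk
    · rw [ww_self]
      exact IsLocalization.Away.algebraMap_isUnit (X : B[X])
    · rw [ww_lt w hk]
      exact ((hw k).map C).map f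
  · intro k hk
    rw [ww_lt w (by omega), hw1 k (by omega), C_1, map_one]

theorem Mem.zero {l m : ℕ} (hme : m + 2 ≤ D.e) (hb : 0 < D.b) (hd : ∀ a, 0 < D.d a)
    (h : Mem D l m) : Mem D l 0 := by
  induction m with
  | zero => exact h
  | succ m ih => exact ih (by omega) (h.step D (by omega) hme hb hd)

end BDF
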