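import Pool.Agent.Helper74.BD.Orders
import Pool.Agent.Helper25.BD.ChainDefs

/-!
# The class of the equations of a chain is not in the ideal of the space of chains
-/

open Finset ZC

namespace BDF

/-- the group algebra of the degrees -/
abbrev Lam (l n : ℕ) : Type := AddMonoidAlgebra (ZMod l) (Fin n → ℤ)

/-- the monomial `T ^ g` -/
noncomputable def TG (l : ℕ) {n : ℕ} (g : Fin n → ℤ) : Lam l n := AddMonoidAlgebra.single g 1

section units

variable {B : Type} [CommRing B] (U : ℕ → Bˣ)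

/-- evaluation of a degree at a family of units -/
def ev (n : ℕ) : Multiplicative (Fin n → ℤ) →* B where
  toFun g := ((∏ i : Fin n, U (i + 1) ^ (Multiplicative.toAdd g i) : Bˣ) : B)
  map_one' := by simp
  map_mul' g h := by
    rw [← Units.val_mul, ← Finset.prod_mul_distrib]
    congr 1
    apply Finset.prod_congr rfl
    intro i _
    rw [toAdd_mul, Pi.add_apply, zpow_add]

variable (l : ℕ) [Algebra (ZMod l) B]

/-- the ring homomorphism from the group algebra -/
noncomputable def Ev (n : ℕ) : Lam l n →ₐ[ZMod l] B :=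
  AddMonoidAlgebra.lift (ZMod l) B (Fin n → ℤ) (ev U n)

theorem Ev_TG {n : ℕ} (g : Fin n → ℤ) :
    Ev U l n (TG l g) = ((∏ i : Fin n, U (i + 1) ^ (g i) : Bˣ) : B) := by
  unfold Ev TG
  rw [AddMonoidAlgebra.lift_single, one_smul]
  rfl

/-- the units extended by one outside `1, …, n` -/
def Ux (n k : ℕ) : Bˣ := if 1 ≤ k ∧ k ≤ n then U k else 1

theorem prod_ep (n k : ℕ) : ∏ i : Fin n, U (i + 1) ^ (ep n k i) = Ux U n k := by
  unfold ep Ux
  split_ifs with h
  · obtain ⟨h1, h2⟩ := h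
    rw [Finset.prod_eq_single (⟨k - 1, by omega⟩ : Fin n)]
    · simp only
      rw [if_pos (by omega), zpow_one]
      congr 1
      omega
    · intro i _ hi
      rw [if_neg, zpow_zero]
      intro h3
      apply hi
      ext
      simp only
      omega
    · simp
  · apply Finset.prod_eq_one
    intro i _
    rw [if_neg (by omega), zpow_zero]

theorem prod_al (n k : ℕ) : ∏ i : Fin n, U (i + 1) ^ (al n k i) =
    Ux U n k ^ 2 * (Ux U n (k - 1))⁻¹ * (Ux U n (k + 1))⁻¹ := by
  rw [← prod_ep U n k, ← prod_ep U n (k - 1), ← prod_ep U n (k + 1), ← Finset.prod_pow,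
    ← Finset.prod_inv_distrib, ← Finset.prod_inv_distrib, ← Finset.prod_mul_distrib,
    ← Finset.prod_mul_distrib]
  apply Finset.prod_congr rfl
  intro i _
  have h : al n k i = ep n k i * 2 - ep n (k - 1) i - ep n (k + 1) i := by
    simp [al, mul_comm]
  rw [h, zpow_sub, zpow_sub, zpow_mul]
  norm_cast

theorem prod_dg (n : ℕ) {d j : ℕ} (hd : 0 < d) : ∏ i : Fin n, U (i + 1) ^ (dg n d j i) =
    Ux U n (j / d) ^ (d - j % d) * Ux U n (j / d + 1) ^ (j % d) := by
  rw [← prod_ep U n (j / d), ← prod_ep U n (j / d + 1), ← Finset.prod_pow, ← Finset.prod_pow,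
    ← Finset.prod_mul_distrib]
  apply Finset.prod_congr rfl
  intro i _
  have h1 := Nat.div_add_mod j d
  have h2 := Nat.mod_lt j hd
  have h3 : ((d : ℤ) * ((j / d : ℕ) + 1) - j) = ((d - j % d : ℕ) : ℤ) := by
    rw [Nat.cast_sub h2.le]
    have h4 : (j : ℤ) = d * (j / d : ℕ) + (j % d : ℕ) := by exact_mod_cast h1.symm
    linear_combination -h4
  have h5 : ((j : ℤ) - d * (j / d : ℕ)) = ((j % d : ℕ) : ℤ) := by
    have h4 : (j : ℤ) = d * (j / d : ℕ) + (j % d : ℕ) := by exact_mod_cast h1.symm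
    linear_combination h4
  have h : dg n d j i = ep n (j / d) i * ((d - j % d : ℕ) : ℤ) +
      ep n (j / d + 1) i * ((j % d : ℕ) : ℤ) := by
    simp only [dg, h3, h5, Pi.add_apply, Pi.smul_apply, smul_eq_mul]
    ring
  rw [h, zpow_add, zpow_mul, zpow_mul, zpow_natCast, zpow_natCast]

end units

variable {B : Type} [CommRing B]

theorem TT_rel (V : B) (w : ℕ → B) {k : ℕ} (hk : 1 ≤ k) :
    TT V w (k + 1) * TT V w (k - 1) = TT V w k ^ 2 * w k := by
  obtain ⟨m, rfl⟩ : ∃ m, k = m + 1 := ⟨k - 1, by omega⟩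
  have h1 : ∀ n, TT V w (n + 1) = TT V w n * (V * ∏ i ∈ Ico 1 (n + 1), w i) := by
    intro n
    rcases Nat.eq_zero_or_pos n with rfl | hn
    · simp [TT]
    · unfold TT
      have h2 : ∏ k ∈ Ico 1 (n + 1), w k ^ (n + 1 - k) =
          (∏ k ∈ Ico 1 n, w k ^ (n - k)) * ∏ k ∈ Ico 1 (n + 1), w k := by
        rw [Finset.prod_Ico_succ_top hn, Finset.prod_Ico_succ_top hn, ← mul_assoc,
          ← Finset.prod_mul_distrib]
        have h3 : n + 1 - n = 1 := by omega
        rw [h3, pow_one]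
        congr 1
        apply Finset.prod_congr rfl
        intro i hi
        rw [mem_Ico] at hi
        rw [← pow_succ]
        congr 1
        omega
      rw [h2, pow_succ]
      ring
  have h4 := h1 (m + 1)
  have h5 := h1 m
  rw [Finset.prod_Ico_succ_top (by omega : 1 ≤ m + 1)] at h4
  rw [Nat.add_sub_cancel, h4, h5]
  ring

/-- the generator of block `k` -/
noncomputable def rG (D : Dat) (l n k : ℕ) : Lam l n :=
  (1 - TG l (ep n k)) ^ D.α k * (1 - TG l (al n k)) ^ (if k = n then D.b else 1)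

/-- the class of the equations -/
noncomputable def GGam (D : Dat) (l n : ℕ) : Lam l n :=
  ∏ a : Fin D.r, ∏ j ∈ Ico 1 (D.d a * D.e), (1 - TG l (dg n (D.d a) j)) ^ D.c a j

theorem mem_start (D : Dat) (l n : ℕ) (hn : 1 ≤ n) (he : D.e = n + 1) (hd : ∀ a, 0 < D.d a)
    (h : GGam D l n ∈ Ideal.span (Set.range fun k : Fin n => rG D l n (k + 1))) :
    Mem D l (n - 1) := by
  intro B _ _ V w hV hw hw1
  let U : ℕ → Bˣ := fun i => (isUnit_TT hV hw i).unit
  have hU : ∀ i, ((U i : Bˣ) : B) = TT V w i := fun i => IsUnit.unit_spec _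
  have hUx : ∀ k, k ≤ n → ((Ux U n k : Bˣ) : B) = TT V w k := by
    intro k hk
    unfold Ux
    split_ifs with h1
    · exact hU k
    · obtain rfl : k = 0 := by omega
      simp [TT]
  have hUx1 : ((Ux U n (n + 1) : Bˣ) : B) = 1 := by
    unfold Ux
    rw [if_neg (by omega), Units.val_one]
  have h1 := Ideal.mem_map_of_mem (Ev U l n) h
  rw [Ideal.map_span] at h1
  -- image of the class of the equations
  have hG : Ev U l n (GGam D l n) = GG D V w := by
    unfold GGam GG
    rw [map_prod]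
    apply Finset.prod_congr rfl
    intro a _
    rw [map_prod]
    apply Finset.prod_congr rfl
    intro j hj
    rw [mem_Ico] at hj
    have hq : j / D.d a ≤ n := by
      rw [← Nat.lt_succ_iff, Nat.div_lt_iff_lt_mul (hd a), Nat.succ_eq_add_one, ← he, mul_comm]
      exact hj.2
    rw [map_pow, map_sub, map_one, Ev_TG, prod_dg U n (hd a), Units.val_mul, Units.val_pow_eq_pow_val,
      Units.val_pow_eq_pow_val, hUx _ hq]
    congr 2
    unfold DD
    split_ifs with h2
    · have h3 : j / D.d a + 1 = n + 1 := by rw [h2, he]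
      rw [h3, hUx1, one_pow]
    · rw [hUx _ (by omega)]
  rw [hG] at h1
  refine (Ideal.span_le.2 ?_ : Ideal.span _ ≤ II D V w (n - 1)) h1
  rintro _ ⟨_, ⟨k, rfl⟩, rfl⟩
  rw [SetLike.mem_coe]
  show Ev U l n (rG D l n (k + 1)) ∈ II D V w (n - 1)
  have hk := k.2
  unfold rG
  rw [map_mul, map_pow, map_pow, map_sub, map_sub, map_one, Ev_TG, Ev_TG, prod_ep, prod_al,
    hUx _ hk, Nat.add_sub_cancel]
  rcases Nat.lt_or_ge (k + 1) n with h2 | h2
  · -- a level with one closing variable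
    rw [if_neg h2.ne, pow_one]
    have h3 : (1 - ((Ux U n (k + 1) ^ 2 * (Ux U n k)⁻¹ * (Ux U n (k + 1 + 1))⁻¹ : Bˣ) : B)) =
        -(((Ux U n (k + 1) ^ 2 * (Ux U n k)⁻¹ * (Ux U n (k + 1 + 1))⁻¹ : Bˣ) : B)) *
          (1 - w (k + 1)) := by
      have h4 : ((Ux U n (k + 1 + 1) * Ux U n k : Bˣ) : B) =
          ((Ux U n (k + 1) ^ 2 : Bˣ) : B) * w (k + 1) := by
        rw [Units.val_mul, Units.val_pow_eq_pow_val, hUx _ h2, hUx _ hk.le, hUx _ hk]
        have := TT_rel V w (k := k + 1) (by omega)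
        rwa [Nat.add_sub_cancel] at this
      have h5 : ((Ux U n (k + 1) ^ 2 * (Ux U n k)⁻¹ * (Ux U n (k + 1 + 1))⁻¹ : Bˣ) : B) *
          w (k + 1) = 1 := by
        have h6 : (Ux U n (k + 1) ^ 2 * (Ux U n k)⁻¹ * (Ux U n (k + 1 + 1))⁻¹ : Bˣ) =
            (Ux U n (k + 1 + 1) * Ux U n k)⁻¹ * Ux U n (k + 1) ^ 2 := by
          rw [mul_inv]
          simp only [mul_comm, mul_assoc]
        rw [h6, Units.val_mul, mul_assoc, ← h4, ← Units.val_mul, inv_mul_cancel, Units.val_one]
      linear_combination (-1 : B) * h5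
    rw [h3]
    have h7 : (1 - TT V w (k + 1)) ^ D.α (k + 1) *
        (-(((Ux U n (k + 1) ^ 2 * (Ux U n k)⁻¹ * (Ux U n (k + 1 + 1))⁻¹ : Bˣ) : B)) *
          (1 - w (k + 1))) =
        -(((Ux U n (k + 1) ^ 2 * (Ux U n k)⁻¹ * (Ux U n (k + 1 + 1))⁻¹ : Bˣ) : B)) *
          rr D V w (k + 1) := by
      unfold rr; ring
    rw [h7]
    exact Ideal.mul_mem_left _ _ (Ideal.subset_span (Or.inl (Or.inl ⟨k + 1, by omega, by omega,
      rfl⟩)))
  · -- the last level
    have h2' : (k : ℕ) + 1 = n := le_antisymm hk h2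
    rw [if_pos h2']
    have h3 : ((Ux U n (k + 1) ^ 2 * (Ux U n k)⁻¹ * (Ux U n (k + 1 + 1))⁻¹ : Bˣ) : B) =
        TT V w D.e := by
      have h4 : TT V w (n + 1) * ((Ux U n k : Bˣ) : B) = ((Ux U n (k + 1) ^ 2 : Bˣ) : B) := by
        rw [Units.val_pow_eq_pow_val, hUx _ hk.le, hUx _ hk]
        have := TT_rel V w (k := k + 1) (by omega)
        rw [Nat.add_sub_cancel, hw1 (k + 1) (by omega), mul_one] at this
        have hn' : TT V w (n + 1) = TT V w ((k : ℕ) + 1 + 1) := by rw [h2']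
        rw [hn']
        exact this
      have h5 : Ux U n (k + 1 + 1) = 1 := by
        unfold Ux
        rw [if_neg (by omega)]
      rw [h5, inv_one, mul_one, Units.val_mul, ← h4, mul_assoc, ← Units.val_mul,
        mul_inv_cancel, Units.val_one, mul_one, he]
    rw [h3]
    have h6 : RR D V w (n - 1) = (1 - TT V w (k + 1)) ^ D.α (k + 1) * (1 - TT V w D.e) ^ D.b := by
      unfold RR
      rw [Nat.sub_add_cancel hn, he, h2', Finset.prod_Ico_succ_top le_rfl]
      simp
    rw [← h6]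
    exact Ideal.subset_span (Or.inl (Or.inr rfl))

/-- **M2.**  The class of the equations is not in the ideal of the space of chains. -/
theorem chain_not_mem (D : Dat) (l n : ℕ) [Fact l.Prime] (hn : 1 ≤ n) (he : D.e = n + 1)
    (hd : ∀ a, 0 < D.d a) (hb : 0 < D.b)
    (H : ∀ k, k + 1 ≤ n → ordG D l < ordB D l k) :
    GGam D l n ∉ Ideal.span (Set.range fun k : Fin n => rG D l n (k + 1)) := by
  intro h
  have h1 := mem_start D l n hn he hd h
  exact not_Mem_zero D l (by omega) hd (fun k hk => H k (by omega))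
    (h1.zero D (by omega) hb hd)

end BDF
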