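import Pool.Agent.Helper74.BD.ChainNot

/-!
# Packaging of `BDF.chain_not_mem` for the unknowns `ZC.CVar D N th`
-/

open Finset ZC

namespace BDF

/-- the product over the unknowns of level `k + 1` -/
theorem prod_lev (l D N th : ℕ) (k : Fin D) :
    ∏ s ∈ univ.filter (fun s : CVar D N th => lev s = (k : ℕ) + 1), (1 - TG l (wt s)) =
      (1 - TG l (ep D (k + 1))) ^ N *
        (1 - TG l (al D (k + 1))) ^ (if (k : ℕ) + 1 = D then th else 1) := by
  classical
  have hk := k.2
  rw [Finset.prod_filter, Fintype.prod_sum_type, Fintype.prod_sum_type, Fintype.prod_prod_type]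
  congr 1
  · rw [Finset.prod_eq_single k]
    · simp [lev, wt]
    · intro i _ hi
      apply Finset.prod_eq_one
      intro b _
      rw [if_neg]
      simp only [lev]
      intro h
      apply hi
      ext
      omega
    · simp
  · rcases Nat.lt_or_ge ((k : ℕ) + 1) D with h | h
    · rw [if_neg h.ne, pow_one]
      have h1 : ∏ x : Fin th, (if lev (Sum.inr (Sum.inr x) : CVar D N th) = (k : ℕ) + 1 then
          1 - TG l (wt (Sum.inr (Sum.inr x) : CVar D N th)) else 1) = 1 := by
        apply Finset.prod_eq_one
        intro b _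
        rw [if_neg]
        simp only [lev]
        omega
      rw [h1, mul_one, Finset.prod_eq_single (⟨k, by omega⟩ : Fin (D - 1))]
      · simp [lev, wt]
      · intro i _ hi
        rw [if_neg]
        simp only [lev]
        intro h
        apply hi
        ext
        simp only
        omega
      · simp
    · have h2 : (k : ℕ) + 1 = D := le_antisymm hk h
      rw [if_pos h2]
      have h1 : ∏ x : Fin (D - 1), (if lev (Sum.inr (Sum.inl x) : CVar D N th) = (k : ℕ) + 1 then
          1 - TG l (wt (Sum.inr (Sum.inl x) : CVar D N th)) else 1) = 1 := by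
        apply Finset.prod_eq_one
        intro b _
        have hb := b.2
        rw [if_neg]
        simp only [lev]
        omega
      rw [h1, one_mul]
      simp [lev, wt, h2]

/-- the numerical data of a system as in `ZC.HasZeros D N th d E` -/
def dat (D N th : ℕ) {r : ℕ} (d E : Fin r → ℕ) : Dat where
  r := r
  d := d
  e := D + 1
  c := fun a _ => E a
  α := fun _ => N
  b := th

/-- **M2, packaged.** -/
theorem chain_not_mem' {l : ℕ} [Fact l.Prime] {D N th r : ℕ} (d E : Fin r → ℕ) (hD : 1 ≤ D)
    (hth : 0 < th) (hd : ∀ a, 0 < d a)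
    (H : ∀ k, k + 1 ≤ D →
      ∑ a, E a * ∑ j ∈ Ico 1 (d a * (D + 1)),
        l ^ padicValNat l (if j / d a = D then D * (d a - j % d a) else j) <
      (∑ a, E a * ∑ j ∈ Ico 1 (d a * k + 1), l ^ padicValNat l j) +
        (N * ∑ i ∈ Ico (k + 1) (D + 1), l ^ padicValNat l i + th * l ^ padicValNat l (D + 1))) :
    ∏ a, ∏ j ∈ Ico 1 (d a * (D + 1)), (1 - TG l (dg D (d a) j)) ^ E a ∉
      Ideal.span (Set.range fun k : Fin D =>
        ∏ s ∈ univ.filter (fun s : CVar D N th => lev s = (k : ℕ) + 1), (1 - TG l (wt s))) := by
  have h1 := chain_not_mem (dat D N th d E) l D hD rfl hd hth ?_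
  · have h2 : (fun k : Fin D => ∏ s ∈ univ.filter (fun s : CVar D N th => lev s = (k : ℕ) + 1),
        (1 - TG l (wt s))) = fun k : Fin D => rG (dat D N th d E) l D (k + 1) := by
      funext k
      rw [prod_lev]
      rfl
    rw [h2]
    exact h1
  · intro k hk
    have h2 := H k hk
    have h3 : ordG (dat D N th d E) l = ∑ a, E a * ∑ j ∈ Ico 1 (d a * (D + 1)),
        l ^ padicValNat l (if j / d a = D then D * (d a - j % d a) else j) := by
      unfold ordG
      apply Finset.sum_congr rfl
      intro a _
      rw [Finset.mul_sum]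
      apply Finset.sum_congr rfl
      intro j _
      simp only [dat, wgt, Nat.add_right_cancel_iff]
      congr 3
      split_ifs with h
      · rw [h]
      · rfl
    have h4 : ordB (dat D N th d E) l k = (∑ a, E a * ∑ j ∈ Ico 1 (d a * k + 1),
        l ^ padicValNat l j) +
        (N * ∑ i ∈ Ico (k + 1) (D + 1), l ^ padicValNat l i + th * l ^ padicValNat l (D + 1)) := by
      unfold ordB
      simp only [dat, Finset.mul_sum]
      rfl
    rw [h3, h4]
    exact h2

end BDF
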