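import Pool.Agent.Helper74.BD.Chain

/-!
# Orders at `V = 1`: the end of the chain algebra
-/

open PowerSeries Finset

namespace BDF

section order

variable {l : ℕ}

/-- `f` has order exactly `n` -/
def Od (f : (ZMod l)⟦X⟧) (n : ℕ) : Prop := ∃ u, IsUnit u ∧ f = X ^ n * u

theorem Od.one : Od (1 : (ZMod l)⟦X⟧) 0 := ⟨1, isUnit_one, by simp⟩

theorem Od.mul {f g : (ZMod l)⟦X⟧} {m n : ℕ} (hf : Od f m) (hg : Od g n) : Od (f * g) (m + n) := by
  obtain ⟨u, hu, rfl⟩ := hf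
  obtain ⟨v, hv, rfl⟩ := hg
  exact ⟨u * v, hu.mul hv, by ring⟩

theorem Od.pow {f : (ZMod l)⟦X⟧} {m : ℕ} (hf : Od f m) (c : ℕ) : Od (f ^ c) (c * m) := by
  obtain ⟨u, hu, rfl⟩ := hf
  exact ⟨u ^ c, hu.pow c, by ring⟩

theorem Od.prod {ι : Type*} (s : Finset ι) (f : ι → (ZMod l)⟦X⟧) (n : ι → ℕ)
    (h : ∀ i ∈ s, Od (f i) (n i)) : Od (∏ i ∈ s, f i) (∑ i ∈ s, n i) := by
  classical
  induction s using Finset.induction_on with
  | empty => simpa using Od.one
  | insert i s hi ih =>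
    rw [Finset.prod_insert hi, Finset.sum_insert hi]
    exact (h i (mem_insert_self _ _)).mul (ih fun j hj => h j (mem_insert_of_mem hj))

theorem Od_one_sub [Fact l.Prime] {n : ℕ} (hn : 0 < n) :
    Od (1 - (1 + X) ^ n : (ZMod l)⟦X⟧) (l ^ padicValNat l n) := by
  have hl : l.Prime := Fact.out
  have : CharP (ZMod l)⟦X⟧ l :=
    charP_of_injective_algebraMap (algebraMap (ZMod l) (ZMod l)⟦X⟧).injective l
  set v := padicValNat l n with hv
  obtain ⟨m, hm⟩ : l ^ v ∣ n := pow_padicValNat_dvd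
  have hlm : ¬ l ∣ m := by
    rintro ⟨k, rfl⟩
    have h1 : l ^ (v + 1) ∣ n := ⟨k, by rw [hm, pow_succ, mul_assoc]⟩
    exact pow_succ_padicValNat_not_dvd hn.ne' h1
  have h1 : ((1 + X) ^ n : (ZMod l)⟦X⟧) = (1 + X ^ (l ^ v)) ^ m := by
    rw [hm, pow_mul, add_pow_char_pow, one_pow]
  refine ⟨-∑ i ∈ range m, (1 + X ^ (l ^ v) : (ZMod l)⟦X⟧) ^ i, ?_, ?_⟩
  · rw [PowerSeries.isUnit_iff_constantCoeff]
    have h2 : constantCoeff (-∑ i ∈ range m, (1 + X ^ (l ^ v) : (ZMod l)⟦X⟧) ^ i) =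
        -(m : ZMod l) := by
      simp [map_neg, map_sum]
    rw [h2]
    apply IsUnit.mk0
    rw [neg_ne_zero]
    intro h3
    exact hlm ((ZMod.natCast_eq_zero_iff m l).1 h3)
  · rw [h1]
    have h2 := mul_geom_sum (1 + X ^ (l ^ v) : (ZMod l)⟦X⟧) m
    rw [add_sub_cancel_left] at h2
    rw [mul_neg, h2]
    ring

end order

section numbers

variable (D : Dat) (l : ℕ)

/-- the weight of the `j`-th equation in one variable -/
def wgt (e d j : ℕ) : ℕ := if j / d + 1 = e then j / d * (d - j % d) else j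

def ordG : ℕ := ∑ a : Fin D.r, ∑ j ∈ Ico 1 (D.d a * D.e),
  D.c a j * l ^ padicValNat l (wgt D.e (D.d a) j)

def ordB (k : ℕ) : ℕ := (∑ a : Fin D.r, ∑ j ∈ Ico 1 (D.d a * k + 1),
    D.c a j * l ^ padicValNat l j) +
  (∑ i ∈ Ico (k + 1) D.e, D.α i * l ^ padicValNat l i + D.b * l ^ padicValNat l D.e)

variable {B : Type*} [CommRing B] (V : B)

theorem TT_one (i : ℕ) : TT V (fun _ => 1) i = V ^ i := by simp [TT]

theorem DD_one (e d j : ℕ) : DD V (fun _ => 1) e d j = V ^ wgt e d j := by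
  unfold DD wgt
  rw [TT_one, TT_one]
  split_ifs with h
  · rw [mul_one, ← pow_mul]
  · rw [← pow_mul, ← pow_mul, ← pow_add]
    congr 1
    rcases Nat.eq_zero_or_pos d with rfl | hd
    · simp
    · have h1 := Nat.div_add_mod j d
      have h2 := Nat.mod_lt j hd
      obtain ⟨s, hs⟩ : ∃ s, d = j % d + s := ⟨d - j % d, by omega⟩
      have h3 : d - j % d = s := by omega
      rw [h3]
      nlinarith [h1, hs]

theorem wgt_pos {e d j : ℕ} (he : 2 ≤ e) (hd : 0 < d) (hj : 0 < j) : 0 < wgt e d j := by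
  unfold wgt
  split_ifs with h
  · have := Nat.mod_lt j hd
    exact Nat.mul_pos (by omega) (by omega)
  · exact hj

theorem wgt_of_le {e d j k : ℕ} (hk : k + 2 ≤ e) (hj : j ≤ d * k) : wgt e d j = j := by
  unfold wgt
  rw [if_neg]
  rcases Nat.eq_zero_or_pos d with rfl | hd
  · simp; omega
  · have : j / d ≤ k := by
      rw [Nat.div_le_iff_le_mul_add_pred hd]
      omega
    omega

theorem Od_GG [Fact l.Prime] (he : 2 ≤ D.e) (hd : ∀ a, 0 < D.d a) :
    Od (GG D (1 + X : (ZMod l)⟦X⟧) (fun _ => 1)) (ordG D l) := by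
  unfold GG ordG
  apply Od.prod
  intro a _
  apply Od.prod
  intro j hj
  rw [mem_Ico] at hj
  apply Od.pow
  rw [DD_one]
  exact Od_one_sub (wgt_pos he (hd a) (by omega))

theorem Od_BB [Fact l.Prime] {k : ℕ} (hk : k + 2 ≤ D.e) :
    Od (BB D (1 + X : (ZMod l)⟦X⟧) (fun _ => 1) k) (ordB D l k) := by
  unfold BB HH RR ordB
  apply Od.mul
  · apply Od.prod
    intro a _
    apply Od.prod
    intro j hj
    rw [mem_Ico] at hj
    apply Od.pow
    rw [DD_one, wgt_of_le hk (by omega)]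
    exact Od_one_sub (by omega)
  · apply Od.mul
    · apply Od.prod
      intro i hi
      rw [mem_Ico] at hi
      apply Od.pow
      rw [TT_one]
      exact Od_one_sub (by omega)
    · apply Od.pow
      rw [TT_one]
      exact Od_one_sub (by omega)

theorem not_Mem_zero [Fact l.Prime] (he : 2 ≤ D.e) (hd : ∀ a, 0 < D.d a)
    (H : ∀ k, k + 2 ≤ D.e → ordG D l < ordB D l k) : ¬ Mem D l 0 := by
  intro h
  have hV : IsUnit (1 + X : (ZMod l)⟦X⟧) := by
    rw [PowerSeries.isUnit_iff_constantCoeff]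
    simp
  have h1 := h (ZMod l)⟦X⟧ (1 + X) (fun _ => 1) hV (fun _ => isUnit_one) (fun _ _ => rfl)
  obtain ⟨u, hu, hG⟩ := Od_GG D l he hd
  have hB : ∀ k, k + 2 ≤ D.e → (X ^ (ordG D l + 1) : (ZMod l)⟦X⟧) ∣
      BB D (1 + X : (ZMod l)⟦X⟧) (fun _ => 1) k := by
    intro k hk
    obtain ⟨v, -, hv⟩ := Od_BB D l hk
    rw [hv]
    exact Dvd.dvd.mul_right (pow_dvd_pow _ (H k hk)) _
  have h2 : II D (1 + X : (ZMod l)⟦X⟧) (fun _ => 1) 0 ≤ Ideal.span {X ^ (ordG D l + 1)} := by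
    unfold II
    rw [Ideal.span_le]
    rintro x ((⟨k, hk1, hk2, -⟩ | rfl) | ⟨k, -, hk, rfl⟩)
    · omega
    · rw [SetLike.mem_coe, Ideal.mem_span_singleton]
      have h3 := hB 0 he
      have h4 : BB D (1 + X : (ZMod l)⟦X⟧) (fun _ => 1) 0 =
          RR D (1 + X : (ZMod l)⟦X⟧) (fun _ => 1) 0 := by
        simp [BB, HH]
      rwa [h4] at h3
    · rw [SetLike.mem_coe, Ideal.mem_span_singleton]
      exact hB k hk
  have h3 := Ideal.mem_span_singleton.1 (h2 h1)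
  rw [hG, pow_succ] at h3
  have h4 : (X : (ZMod l)⟦X⟧) ∣ u := by
    have h5 : (X ^ ordG D l : (ZMod l)⟦X⟧) ≠ 0 := pow_ne_zero _ X_ne_zero
    exact (mul_dvd_mul_iff_left h5).1 h3
  rw [X_dvd_iff] at h4
  have h5 := PowerSeries.isUnit_iff_constantCoeff.1 hu
  rw [h4] at h5
  exact not_isUnit_zero h5

end numbers

end BDF
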