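import Mathlib

/-!
# The push lemma

For a polynomial `Q` of positive degree with unit leading coefficient over a commutative ring `B`
there is a `B`-linear map `π : B[X] → B` which kills the multiples of `Q`, which is `1` on `1`, and
which sends `(1 - X) g` to a multiple of `Q(1)`.  (It is the push-forward in `K`-theory along the
zero set of `Q`, in elementary form.)
-/

open Polynomial

namespace BDF

section push

variable {B : Type*} [CommRing B]

/-- Division by `X - 1` as a linear map. -/
noncomputable def sharp (B : Type*) [CommRing B] : B[X] →ₗ[B] B[X] where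
  toFun c := c /ₘ (X - C 1)
  map_add' a b := by
    nontriviality B
    refine (div_modByMonic_unique (a /ₘ (X - C 1) + b /ₘ (X - C 1))
      (a %ₘ (X - C 1) + b %ₘ (X - C 1)) (monic_X_sub_C 1) ⟨?_, ?_⟩).1
    · have h1 := modByMonic_add_div a (X - C (1 : B))
      have h2 := modByMonic_add_div b (X - C (1 : B))
      linear_combination h1 + h2
    · exact (degree_add_le _ _).trans_lt (max_lt (degree_modByMonic_lt _ (monic_X_sub_C 1))
        (degree_modByMonic_lt _ (monic_X_sub_C 1)))
  map_smul' r a := by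
    nontriviality B
    refine (div_modByMonic_unique (r • (a /ₘ (X - C 1)))
      (r • (a %ₘ (X - C 1))) (monic_X_sub_C 1) ⟨?_, ?_⟩).1
    · nth_rewrite 3 [← modByMonic_add_div a (X - C (1 : B))]
      simp only [smul_add, mul_smul_comm]
    · exact (degree_smul_le _ _).trans_lt (degree_modByMonic_lt _ (monic_X_sub_C 1))

theorem sharp_apply (c : B[X]) : sharp B c = c /ₘ (X - C 1) := rfl

theorem sharp_spec (c : B[X]) : C (c.eval 1) + (X - C 1) * sharp B c = c := by
  rw [sharp_apply, ← modByMonic_X_sub_C_eq_C_eval]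
  exact modByMonic_add_div c (X - C 1)

theorem sharp_eq_of {c g : B[X]} {b : B} (h : C b + (X - C 1) * g = c) : sharp B c = g := by
  nontriviality B
  refine (div_modByMonic_unique g (C b) (monic_X_sub_C 1) ⟨h, ?_⟩).1
  rw [degree_X_sub_C]
  exact degree_C_le.trans_lt (by norm_num)

theorem push (Q : B[X]) (hu : IsUnit Q.leadingCoeff) (hD : 0 < Q.natDegree) :
    ∃ π lam : B[X] →ₗ[B] B, (∀ g, π (Q * g) = 0) ∧
      (∀ g, π ((1 - X) * g) = Q.eval 1 * lam g) ∧ π 1 = 1 := by
  nontriviality B
  obtain ⟨u, hu⟩ := hu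
  set Q' : B[X] := C (↑u⁻¹ : B) * Q with hQ'
  have hm : Q'.Monic := monic_C_mul_of_mul_leadingCoeff_eq_one (by rw [← hu]; simp)
  have hQ : C (u : B) * Q' = Q := by
    rw [hQ', ← mul_assoc, ← C_mul]; simp
  have hdeg : Q'.natDegree = Q.natDegree := by
    rw [← hQ]
    have h1 : (C (u : B) * Q').leadingCoeff = u := by rw [hQ, hu]
    apply le_antisymm
    · by_contra hlt
      push Not at hlt
      have h2 : (C (u : B) * Q').coeff Q'.natDegree = 0 := coeff_eq_zero_of_natDegree_lt hlt
      rw [coeff_C_mul, coeff_natDegree, hm.leadingCoeff, mul_one] at h2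
      exact u.ne_zero h2
    · exact natDegree_C_mul_le _ _
  have hdeg0 : Q'.degree = (Q.natDegree : ℕ) := by
    rw [degree_eq_natDegree hm.ne_zero, hdeg]
  set lam' : B[X] →ₗ[B] B := (lcoeff B (Q.natDegree - 1)) ∘ₗ (modByMonicHom Q') with hlam'
  have hlam'0 : ∀ g, lam' (Q' * g) = 0 := by
    intro g
    have : (Q' * g) %ₘ Q' = 0 := (modByMonic_eq_zero_iff_dvd hm).2 (dvd_mul_right _ _)
    simp [hlam', modByMonicHom, this]
  have hlam'1 : lam' (sharp B Q') = 1 := by
    have h1 : degree (X - C (1 : B)) ≤ degree Q' := by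
      rw [degree_X_sub_C, hdeg0]
      exact_mod_cast hD
    have h2 : (sharp B Q').leadingCoeff = 1 := by
      rw [sharp_apply, leadingCoeff_divByMonic_of_monic (monic_X_sub_C 1) h1, hm.leadingCoeff]
    have h3 : (sharp B Q').natDegree = Q.natDegree - 1 := by
      rw [sharp_apply, natDegree_divByMonic _ (monic_X_sub_C 1), hdeg, natDegree_X_sub_C]
    have h4 : (sharp B Q') %ₘ Q' = sharp B Q' := by
      rw [modByMonic_eq_self_iff hm]
      refine degree_le_natDegree.trans_lt ?_
      rw [h3, hdeg0]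
      exact_mod_cast Nat.sub_lt hD Nat.one_pos
    have h5 : (sharp B Q').coeff (Q.natDegree - 1) = 1 := by
      rw [← h3, coeff_natDegree, h2]
    simp [hlam', modByMonicHom, h4, h5]
  set lam : B[X] →ₗ[B] B := (↑u⁻¹ : B) • lam' with hlam
  have hlam0 : ∀ g, lam (Q * g) = 0 := by
    intro g
    rw [← hQ, mul_assoc, C_mul', map_smul, hlam, LinearMap.smul_apply, hlam'0]
    simp
  have hlam1 : lam (sharp B Q) = 1 := by
    rw [← hQ, C_mul', map_smul, map_smul, hlam, LinearMap.smul_apply, hlam'1]
    simp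
  refine ⟨(Polynomial.leval 1) - (Q.eval 1) • (lam ∘ₗ sharp B), lam, ?_, ?_, ?_⟩
  · intro g
    have h1 : sharp B (Q * g) = Q * sharp B g + (g.eval 1) • sharp B Q := by
      apply sharp_eq_of (b := Q.eval 1 * g.eval 1)
      have h2 := sharp_spec Q
      have h3 := sharp_spec g
      rw [smul_eq_C_mul]
      calc C (Q.eval 1 * g.eval 1) + (X - C 1) * (Q * sharp B g + C (g.eval 1) * sharp B Q)
          = Q * ((X - C 1) * sharp B g) + C (g.eval 1) * (C (Q.eval 1) + (X - C 1) * sharp B Q)
              := by rw [C_mul]; ring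
        _ = Q * (C (g.eval 1) + (X - C 1) * sharp B g) := by rw [h2]; ring
        _ = Q * g := by rw [h3]
    simp only [LinearMap.sub_apply, LinearMap.smul_apply, LinearMap.comp_apply, leval_apply, h1,
      map_add, map_smul, hlam0, hlam1, eval_mul, smul_eq_mul]
    ring
  · intro g
    have h1 : sharp B ((1 - X) * g) = -g := by
      apply sharp_eq_of (b := 0)
      rw [C_0, C_1]; ring
    simp only [LinearMap.sub_apply, LinearMap.smul_apply, LinearMap.comp_apply, leval_apply, h1,
      map_neg, eval_mul, eval_sub, eval_one, eval_X, smul_eq_mul]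
    ring
  · have h1 : sharp B 1 = 0 := by
      apply sharp_eq_of (b := 1)
      simp
    simp only [LinearMap.sub_apply, LinearMap.smul_apply, LinearMap.comp_apply, leval_apply, h1,
      map_zero, eval_one, smul_eq_mul]
    ring

/-- `π (c) ≡ c(1)` modulo `Q(1)`. -/
theorem push_eval (Q : B[X]) (hu : IsUnit Q.leadingCoeff) (hD : 0 < Q.natDegree) :
    ∃ π lam : B[X] →ₗ[B] B, (∀ g, π (Q * g) = 0) ∧
      (∀ g, π ((1 - X) * g) = Q.eval 1 * lam g) ∧
      (∀ c, ∃ b, π c = c.eval 1 + Q.eval 1 * b) := by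
  obtain ⟨π, lam, h1, h2, h3⟩ := push Q hu hD
  refine ⟨π, lam, h1, h2, fun c => ⟨lam (-sharp B c), ?_⟩⟩
  have h4 := sharp_spec c
  have h5 : c = c.eval 1 • (1 : B[X]) + (1 - X) * (-sharp B c) := by
    nth_rewrite 1 [← h4]
    rw [smul_eq_C_mul, C_1]; ring
  nth_rewrite 1 [h5]
  rw [map_add, map_smul, h3, h2]
  simp

end push

end BDF
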